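import Pool.Agent.Lib_helper60.PQ.Defs

/-! Project PQ (MP_05dcdc_nt), block R2: the ideals `{x + y √-n : m ∣ x + r y}`. -/

set_option autoImplicit false

namespace Pool.Agent.PQ

open Pool.Agent.TM32

/-- the ideal `{x + y √-n : m ∣ x + r y}` -/
def R2I (n m : ℕ) (r : ℤ) (hr : (m : ℤ) ∣ r ^ 2 + n) : Ideal (Od n) where
  carrier := {z | (m : ℤ) ∣ z.re + r * z.im}
  add_mem' := by
    intro a b ha hb
    have h : (a + b).re + r * (a + b).im = (a.re + r * a.im) + (b.re + r * b.im) := by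
      simp only [Zsqrtd.re_add, Zsqrtd.im_add]
      ring
    change (m : ℤ) ∣ (a + b).re + r * (a + b).im
    rw [h]
    exact dvd_add ha hb
  zero_mem' := by
    change (m : ℤ) ∣ (0 : Od n).re + r * (0 : Od n).im
    simp
  smul_mem' := by
    intro c z hz
    have h : (c • z).re + r * (c • z).im =
        (c.re + r * c.im) * (z.re + r * z.im) - (r ^ 2 + n) * (c.im * z.im) := by
      simp only [smul_eq_mul, Zsqrtd.re_mul, Zsqrtd.im_mul]
      ring
    change (m : ℤ) ∣ (c • z).re + r * (c • z).im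
    rw [h]
    exact dvd_sub (Dvd.dvd.mul_left hz _) (Dvd.dvd.mul_right hr _)

theorem R2_mem {n m : ℕ} {r : ℤ} (hr : (m : ℤ) ∣ r ^ 2 + n) (z : Od n) :
    z ∈ R2I n m r hr ↔ (m : ℤ) ∣ z.re + r * z.im := Iff.rfl

theorem R2_neg {n m : ℕ} {r : ℤ} (hr : (m : ℤ) ∣ r ^ 2 + n) : (m : ℤ) ∣ (-r) ^ 2 + n := by
  rwa [neg_sq]

/-- `I conj I = (m)` -/
theorem R2_mul {n m : ℕ} {r : ℤ} (hr : (m : ℤ) ∣ r ^ 2 + n) (hc : Nat.Coprime m (2 * n)) :
    R2I n m r hr * R2I n m (-r) (R2_neg hr) = Ideal.span {((m : ℤ) : Od n)} := by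
  apply le_antisymm
  · rw [Ideal.mul_le]
    intro a ha b hb
    obtain ⟨k, hk⟩ := (R2_mem hr a).1 ha
    obtain ⟨l, hl⟩ := (R2_mem (R2_neg hr) b).1 hb
    obtain ⟨s, hs⟩ := hr
    rw [Ideal.mem_span_singleton, Zsqrtd.intCast_dvd]
    have e1 : a.re = m * k - r * a.im := by linarith
    have e2 : b.re = m * l + r * b.im := by linarith
    constructor
    · have : (a * b).re = m * (k * b.re - l * r * a.im - s * (a.im * b.im)) := by
        rw [Zsqrtd.re_mul]
        have h3 : a.re * b.re = m * k * b.re - r * a.im * (m * l + r * b.im) := by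
          rw [← e2]
          nth_rw 1 [e1]
          ring
        rw [h3]
        linear_combination (-(a.im * b.im)) * hs
      exact ⟨_, this⟩
    · have : (a * b).im = m * (k * b.im + l * a.im) := by
        rw [Zsqrtd.im_mul, e1, e2]
        ring
      exact ⟨_, this⟩
  · rw [Ideal.span_singleton_le_iff_mem]
    -- gcd (m, 2 r) = 1
    have hc1 : IsCoprime (m : ℤ) (2 * r) := by
      have h2n : IsCoprime (m : ℤ) ((2 * n : ℕ) : ℤ) := Nat.isCoprime_iff_coprime.2 hc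
      push_cast at h2n
      have h2 : IsCoprime (m : ℤ) 2 := h2n.of_mul_right_left
      have hn : IsCoprime (m : ℤ) (n : ℤ) := h2n.of_mul_right_right
      have hr2 : IsCoprime (m : ℤ) (r ^ 2) := by
        obtain ⟨s, hs⟩ := hr
        have : r ^ 2 = -(n : ℤ) + m * s := by linarith
        rw [this]
        exact (IsCoprime.add_mul_left_right_iff).2 hn.neg_right
      exact h2.mul_right ((IsCoprime.pow_right_iff (by norm_num)).1 hr2)
    obtain ⟨a, b, hab⟩ := hc1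
    have hm1 : ((m : ℤ) : Od n) ∈ R2I n m r hr := by
      rw [R2_mem]
      simp
    have hm2 : ((m : ℤ) : Od n) ∈ R2I n m (-r) (R2_neg hr) := by
      rw [R2_mem]
      simp
    have hs1 : (⟨-r, 1⟩ : Od n) ∈ R2I n m r hr := by
      rw [R2_mem]
      simp
    have hs2 : (⟨r, 1⟩ : Od n) ∈ R2I n m (-r) (R2_neg hr) := by
      rw [R2_mem]
      simp
    have p1 := Ideal.mul_mem_mul hm1 hm2
    have p2 := Ideal.mul_mem_mul hm1 hs2
    have p3 := Ideal.mul_mem_mul hs1 hm2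
    have p4 := Ideal.mul_mem_left _ ((a : ℤ) : Od n) p1
    have p5 := Ideal.mul_mem_left _ ((b : ℤ) : Od n) (Ideal.sub_mem _ p2 p3)
    have p6 := Ideal.add_mem _ p4 p5
    have e : ((a : ℤ) : Od n) * (((m : ℤ) : Od n) * ((m : ℤ) : Od n)) +
        ((b : ℤ) : Od n) * (((m : ℤ) : Od n) * (⟨r, 1⟩ : Od n) -
          (⟨-r, 1⟩ : Od n) * ((m : ℤ) : Od n)) = ((m : ℤ) : Od n) := by
      ext
      · simp
        linear_combination (m : ℤ) * hab
      · simp
    rw [e] at p6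
    exact p6

theorem R2_inv {n m : ℕ} [NeZero n] {r : ℤ} (hm : 0 < m) (hr : (m : ℤ) ∣ r ^ 2 + n)
    (hc : Nat.Coprime m (2 * n)) : TM32.Inv (R2I n m r hr) := by
  refine ⟨R2I n m (-r) (R2_neg hr), ((m : ℤ) : Od n), ?_, R2_mul hr hc⟩
  intro h
  have h1 := congrArg Zsqrtd.re h
  simp at h1
  omega

/-- R2 -/
theorem rp_make (n : ℕ) [NeZero n] (m : ℕ) (r : ℤ) (hm : 0 < m) (hc : Nat.Coprime m (2 * n))
    (hr : (m : ℤ) ∣ r ^ 2 + n) : ∃ C : ClassGroup (Od n), Rp n C m r :=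
  ⟨mkI (R2I n m r hr) (R2_inv hm hr hc), hm, hc, hr, R2I n m r hr, R2_inv hm hr hc,
    fun z => R2_mem hr z, rfl⟩

end Pool.Agent.PQ
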