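import Pool.Agent.Lib_helper72.PQ.R1
import Pool.Agent.Lib_helper81.PQ.R2
import Pool.Agent.Lib_helper24.PQ.R3

/-! Project PQ (MP_05dcdc_nt), block CHI: the genus character. -/

set_option autoImplicit false

namespace Pool.Agent.PQ

open Finset Pool.Agent.TM32

theorem chi_gcd {n : ℕ} [NeZero n] {C : ClassGroup (Od n)} {m : ℕ} {r : ℤ} (h : Rp n C m r)
    {p : ℕ} (hpn : p ∣ n) : (m : ℤ).gcd p = 1 := by
  have h1 : Nat.Coprime m n := h.2.1.coprime_mul_left_right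
  have h2 : Nat.Coprime m p := Nat.Coprime.coprime_dvd_right hpn h1
  rw [Int.gcd_natCast_natCast]
  exact h2

theorem chi_three {n : ℕ} [NeZero n] {C C' : ClassGroup (Od n)} {m m' m'' : ℕ} {r r' r'' : ℤ}
    (h : Rp n C m r) (h' : Rp n C' m' r') (h'' : Rp n (C * C') m'' r'') {p : ℕ} (hpn : p ∣ n) :
    jacobiSym m p * jacobiSym m' p * jacobiSym m'' p = 1 := by
  obtain ⟨x, y, hxy⟩ := rp_mul n C C' m m' m'' r r' r'' h h' h''
  have g1 := chi_gcd h hpn
  have g2 := chi_gcd h' hpn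
  have g3 := chi_gcd h'' hpn
  rw [← jacobiSym.mul_left, ← jacobiSym.mul_left]
  obtain ⟨k, hk⟩ := hpn
  have e1 : ((m * m' * m'' : ℤ)) = x ^ 2 + (p : ℤ) * (k * y ^ 2) := by
    rw [hxy, hk]
    push_cast
    ring
  have e2 : ((m * m' * m'' : ℤ)) % p = (x ^ 2) % p := by
    rw [e1, Int.add_mul_emod_self_left]
  rw [jacobiSym.mod_left' e2]
  refine jacobiSym.sq_one' ?_
  -- coprimality
  have c1 : IsCoprime ((m : ℤ) * m' * m'') (p : ℤ) := by
    refine IsCoprime.mul_left (IsCoprime.mul_left ?_ ?_) ?_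
    · exact Int.isCoprime_iff_gcd_eq_one.2 g1
    · exact Int.isCoprime_iff_gcd_eq_one.2 g2
    · exact Int.isCoprime_iff_gcd_eq_one.2 g3
  rw [e1] at c1
  have c2 : IsCoprime (x ^ 2) (p : ℤ) := (IsCoprime.add_mul_left_left_iff).1 c1
  exact Int.isCoprime_iff_gcd_eq_one.1 ((IsCoprime.pow_left_iff (by norm_num)).1 c2)

theorem chi_one {n : ℕ} [NeZero n] {m : ℕ} {r : ℤ} (h : Rp n 1 m r) {p : ℕ} (hpn : p ∣ n) :
    jacobiSym m p = 1 := by
  have h1 : Rp n (1 * 1) m r := by rwa [mul_one]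
  have h2 := chi_three h h h1 hpn
  rcases jacobiSym.eq_one_or_neg_one (chi_gcd h hpn) with h3 | h3
  · exact h3
  · rw [h3] at h2
    norm_num at h2

theorem chi_well {n : ℕ} [NeZero n] {C : ClassGroup (Od n)} {m m' : ℕ} {r r' : ℤ}
    (h : Rp n C m r) (h' : Rp n C m' r') {p : ℕ} (hpn : p ∣ n) :
    jacobiSym m p = jacobiSym m' p := by
  obtain ⟨m₁, r₁, h₁⟩ := rp_exists n 1
  have h1 : Rp n (C * 1) m' r' := by rwa [mul_one]
  have h2 := chi_three h h₁ h1 hpn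
  rw [chi_one h₁ hpn, mul_one] at h2
  rcases jacobiSym.eq_one_or_neg_one (chi_gcd h hpn) with h3 | h3 <;>
    rcases jacobiSym.eq_one_or_neg_one (chi_gcd h' hpn) with h4 | h4 <;>
    rw [h3, h4] at h2 ⊢ <;> norm_num at h2

/-- a prime `l = 1 mod 4`, non-residue modulo `p` and modulo `q` -/
theorem chi_prime {p q : ℕ} (hp : p.Prime) (hq : q.Prime) (hpq : p ≠ q) (hp2 : p ≠ 2)
    (hq2 : q ≠ 2) : ∃ l : ℕ, l.Prime ∧ p * q < l ∧ l % 4 = 1 ∧ jacobiSym l p = -1 ∧
      jacobiSym l q = -1 := by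
  have : Fact p.Prime := ⟨hp⟩
  have : Fact q.Prime := ⟨hq⟩
  have key : ∀ s : ℕ, s.Prime → s ≠ 2 → ∃ a : ℕ, jacobiSym a s = -1 := fun s hs hs2 => by
    have : Fact s.Prime := ⟨hs⟩
    obtain ⟨a, ha⟩ := FiniteField.exists_nonsquare (F := ZMod s) (by rwa [ZMod.ringChar_zmod_n])
    refine ⟨a.val, ?_⟩
    rw [← jacobiSym.legendreSym.to_jacobiSym, legendreSym.eq_neg_one_iff]
    simpa using ha
  obtain ⟨a, ha⟩ := key p hp hp2
  obtain ⟨b, hb⟩ := key q hq hq2
  have c1 : Nat.Coprime p q := (Nat.coprime_primes hp hq).2 hpq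
  obtain ⟨k, hk1, hk2⟩ := Nat.chineseRemainder c1 a b
  have cp : Nat.Coprime 4 p := by
    have h := (Nat.coprime_primes Nat.prime_two hp).2 (Ne.symm hp2)
    exact (Nat.Coprime.pow_left 2 h : Nat.Coprime (2 ^ 2) p)
  have cq : Nat.Coprime 4 q := by
    have h := (Nat.coprime_primes Nat.prime_two hq).2 (Ne.symm hq2)
    exact (Nat.Coprime.pow_left 2 h : Nat.Coprime (2 ^ 2) q)
  have c2 : Nat.Coprime 4 (p * q) := Nat.Coprime.mul_right cp cq
  obtain ⟨j, hj1, hj2⟩ := Nat.chineseRemainder c2 1 k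
  have hjp : j ≡ a [MOD p] := (Nat.ModEq.of_mul_right q hj2).trans hk1
  have hjq : j ≡ b [MOD q] := (Nat.ModEq.of_mul_left p hj2).trans hk2
  have sym : ∀ s x y : ℕ, x ≡ y [MOD s] → jacobiSym x s = jacobiSym y s := fun s x y h =>
    jacobiSym.mod_left' (by exact_mod_cast h)
  have hjp' : jacobiSym j p = -1 := (sym _ _ _ hjp).trans ha
  have hjq' : jacobiSym j q = -1 := (sym _ _ _ hjq).trans hb
  have copr : ∀ s : ℕ, s.Prime → jacobiSym j s = -1 → Nat.Coprime j s := fun s hs h => by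
    have : NeZero s := ⟨hs.ne_zero⟩
    by_contra hc
    have h0 : jacobiSym j s = 0 := by
      rw [jacobiSym.eq_zero_iff_not_coprime, Int.gcd_natCast_natCast]
      exact hc
    rw [h0] at h
    norm_num at h
  have cj4 : Nat.Coprime j 4 := by
    have h := Nat.ModEq.gcd_eq hj1
    rw [Nat.Coprime, h]
    norm_num
  have cj : Nat.Coprime j (4 * (p * q)) :=
    Nat.Coprime.mul_right cj4 (Nat.Coprime.mul_right (copr p hp hjp') (copr q hq hjq'))
  have hne : 4 * (p * q) ≠ 0 := by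
    have := hp.pos
    have := hq.pos
    positivity
  obtain ⟨l, hl1, hl2, hl3⟩ := Nat.forall_exists_prime_gt_and_modEq (p * q) hne cj
  refine ⟨l, hl2, hl1, ?_, ?_, ?_⟩
  · have h := (Nat.ModEq.of_mul_right _ hl3).trans hj1
    exact h
  · exact (sym _ _ _ (Nat.ModEq.of_mul_right q (Nat.ModEq.of_mul_left 4 hl3))).trans hjp'
  · exact (sym _ _ _ (Nat.ModEq.of_mul_left p (Nat.ModEq.of_mul_left 4 hl3))).trans hjq'

theorem chi_exists (p q : ℕ) [NeZero (p * q)] (hpq : Pair p q) : ∃ χ : ClassGroup (Od (p * q)) →* ℤˣ,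
    (∃ C, χ C = -1) ∧
    ∀ (C : ClassGroup (Od (p * q))) (m : ℕ) (r : ℤ), Rp (p * q) C m r → ((χ C : ℤˣ) : ℤ) = jacobiSym m p := by
  obtain ⟨hp, hq, hp4, hq4, hpq8⟩ := hpq
  have hpn : p ∣ p * q := dvd_mul_right p q
  choose mm rr hh using rp_exists (p * q)
  let s : ClassGroup (Od (p * q)) → ℤˣ := fun C => if jacobiSym (mm C) p = 1 then 1 else -1
  have hs : ∀ C, ((s C : ℤˣ) : ℤ) = jacobiSym (mm C) p := fun C => by
    simp only [s]
    rcases jacobiSym.eq_one_or_neg_one (chi_gcd (hh C) hpn) with h3 | h3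
    · rw [if_pos h3, h3]
      rfl
    · rw [if_neg (by rw [h3]; norm_num), h3]
      rfl
  have hall : ∀ (C : ClassGroup (Od (p * q))) (m : ℕ) (r : ℤ), Rp (p * q) C m r →
      ((s C : ℤˣ) : ℤ) = jacobiSym m p := fun C m r h => by
    rw [hs, chi_well (hh C) h hpn]
  have hmul : ∀ C C', s (C * C') = s C * s C' := fun C C' => by
    have h := chi_three (hh C) (hh C') (hh (C * C')) hpn
    rw [← hs, ← hs, ← hs] at h
    have h2 : s C * s C' * s (C * C') = 1 := by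
      ext
      push_cast
      exact h
    have h3 : s (C * C') = (s C * s C')⁻¹ := (eq_inv_of_mul_eq_one_right h2)
    rw [h3, Int.units_inv_eq_self]
  refine ⟨MonoidHom.mk' s hmul, ?_, hall⟩
  have hne : p ≠ q := fun h => by
    rw [h] at hp4
    omega
  have hp2 : p ≠ 2 := fun h => by
    rw [h] at hp4
    omega
  have hq2 : q ≠ 2 := fun h => by
    rw [h] at hq4
    omega
  obtain ⟨l, hl, hlb, hl4, hlp, hlq⟩ := chi_prime hp hq hne hp2 hq2
  have : Fact l.Prime := ⟨hl⟩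
  have : NeZero p := ⟨hp.ne_zero⟩
  have : NeZero q := ⟨hq.ne_zero⟩
  have hpodd : Odd (p * q) := by
    rw [Nat.odd_iff]
    omega
  -- the square root of -n
  have hJ : jacobiSym ((p * q : ℕ) : ℤ) l = 1 := by
    rw [← jacobiSym.quadratic_reciprocity_one_mod_four hl4 hpodd, jacobiSym.mul_right, hlp, hlq]
    norm_num
  have hsq1 : IsSquare (((p * q : ℕ) : ℤ) : ZMod l) := ZMod.isSquare_of_jacobiSym_eq_one hJ
  have hsq2 : IsSquare (-1 : ZMod l) := ZMod.exists_sq_eq_neg_one_iff.2 (by omega)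
  obtain ⟨u, hu⟩ := hsq1.mul hsq2
  have hr : (l : ℤ) ∣ ((u.val : ℤ)) ^ 2 + ((p * q : ℕ) : ℤ) := by
    rw [← ZMod.intCast_zmod_eq_zero_iff_dvd]
    push_cast
    rw [ZMod.natCast_zmod_val]
    push_cast at hu
    linear_combination -hu
  have hcop : Nat.Coprime l (2 * (p * q)) := by
    rw [Nat.Prime.coprime_iff_not_dvd hl]
    intro hd
    have hle : ¬ l ∣ p * q := fun h => absurd (Nat.le_of_dvd (Nat.mul_pos hp.pos hq.pos) h)
      (by omega)
    rcases (Nat.Prime.dvd_mul hl).1 hd with h | h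
    · have := (Nat.prime_dvd_prime_iff_eq hl Nat.prime_two).1 h
      omega
    · exact hle h
  obtain ⟨C, hC⟩ := rp_make (p * q) l (u.val : ℤ) hl.pos hcop hr
  refine ⟨C, ?_⟩
  have h := hall C l _ hC
  rw [hlp] at h
  ext
  exact h

end Pool.Agent.PQ
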